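import Mathlib
import Pool.Agent.Y600.DC.Stm

/-!
# Berge's bicolouring theorem for balanced hypergraphs (project DC, package BICOL)
-/

set_option autoImplicit false

namespace Pool.Agent.U690.DC.Bicol

open Pool.Agent.Y600.DC

/-- graph of the two-element traces on `W` -/
def TG {I V : Type} (R : I → V → Prop) (W : Finset V) : SimpleGraph V where
  Adj x y := x ≠ y ∧ x ∈ W ∧ y ∈ W ∧ ∃ i, R i x ∧ R i y ∧ ∀ z ∈ W, R i z → z = x ∨ z = y
  symm := ⟨by
    rintro x y ⟨h1, h2, h3, i, h4, h5, h6⟩
    exact ⟨h1.symm, h3, h2, i, h5, h4, fun z hz hr => (h6 z hz hr).symm⟩⟩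
  loopless := ⟨fun x h => h.1 rfl⟩

/-- closed sequences of odd length contain cycles without repeated vertices -/
theorem odd_seq {V : Type} (G : SimpleGraph V) (n : ℕ) (hn : Odd n) (f : ℕ → V)
    (hf : ∀ i < n, G.Adj (f i) (f (i + 1))) (hc : f n = f 0) :
    ∃ (m : ℕ) (g : ℕ → V), Odd m ∧ 3 ≤ m ∧ (∀ i < m, G.Adj (g i) (g (i + 1))) ∧ g m = g 0 ∧
      ∀ i j, i < j → j < m → g i ≠ g j := by
  induction n using Nat.strong_induction_on generalizing f with
  | _ n ih =>
    by_cases h : ∀ i j, i < j → j < n → f i ≠ f j
    · refine ⟨n, f, hn, ?_, hf, hc, h⟩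
      by_contra h3
      obtain ⟨k, hk⟩ := hn
      have h1 : n = 1 := by omega
      subst h1
      have := hf 0 (by norm_num)
      rw [show (0 : ℕ) + 1 = 1 from rfl, hc] at this
      exact G.loopless.irrefl _ this
    · push Not at h
      obtain ⟨i, j, hij, hj, he⟩ := h
      by_cases ho : Odd (j - i)
      · refine ih (j - i) (by omega) ho (fun k => f (i + k)) (fun k hk => ?_) ?_
        · have := hf (i + k) (by omega)
          rwa [add_assoc] at this
        · show f (i + (j - i)) = f (i + 0)
          rw [show i + (j - i) = j by omega, add_zero, he]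
      · have ho2 : Odd (n - (j - i)) := by
          rw [Nat.not_odd_iff_even] at ho
          exact Nat.Odd.sub_even (by omega) hn ho
        refine ih (n - (j - i)) (by omega) ho2 (fun k => if k ≤ i then f k else f (k + (j - i)))
          (fun k hk => ?_) ?_
        · rcases lt_trichotomy k i with h1 | h1 | h1
          · rw [if_pos (by omega), if_pos (by omega)]
            exact hf k (by omega)
          · subst h1
            rw [if_pos le_rfl, if_neg (by omega), he]
            have := hf j (by omega)
            rwa [show k + 1 + (j - k) = j + 1 by omega]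
          · rw [if_neg (by omega), if_neg (by omega)]
            have := hf (k + (j - i)) (by omega)
            rwa [show k + 1 + (j - i) = k + (j - i) + 1 by omega]
        · rw [if_pos (Nat.zero_le _)]
          split_ifs with h1
          · have : n - (j - i) ≤ i := h1
            have h2 : n - (j - i) = i := by omega
            exfalso
            omega
          · rw [show n - (j - i) + (j - i) = n by omega, hc]

theorem tg_colorable {I V : Type} {R : I → V → Prop} (hR : RelBalanced R) (W : Finset V) :
    (TG R W).Colorable 2 := by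
  rw [SimpleGraph.two_colorable_iff_forall_loop_even]
  intro u w
  by_contra ho
  rw [Nat.not_even_iff_odd] at ho
  obtain ⟨m, g, hm, hm3, hadj, hc, hinj⟩ := odd_seq (TG R W) w.length ho w.getVert
    (fun i hi => w.adj_getVert_succ hi) (by rw [w.getVert_length, w.getVert_zero])
  have : NeZero m := ⟨by omega⟩
  have hinj' : Function.Injective (fun i : ZMod m => g i.val) := by
    intro a b hab
    have ha := ZMod.val_lt a
    have hb := ZMod.val_lt b
    rcases lt_trichotomy a.val b.val with h | h | h
    · exact absurd hab (hinj _ _ h hb)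
    · exact ZMod.val_injective m h
    · exact absurd hab.symm (hinj _ _ h ha)
  have hsucc : ∀ i : ZMod m, g (i + 1).val = g (i.val + 1) := by
    intro i
    have hi := ZMod.val_lt i
    have : Fact (1 < m) := ⟨by omega⟩
    by_cases h : i.val + 1 < m
    · rw [ZMod.val_add_of_lt (by rw [ZMod.val_one]; exact h), ZMod.val_one]
    · have h2 : i.val + 1 = m := by omega
      have h3 : (i + 1).val = 0 := by
        rw [ZMod.val_add, ZMod.val_one, h2, Nat.mod_self]
      rw [h3, h2, hc]
  have hA : ∀ i : ZMod m, (TG R W).Adj (g i.val) (g (i + 1).val) := by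
    intro i
    rw [hsucc]
    exact hadj _ (ZMod.val_lt i)
  choose e he1 he2 he3 using fun i => (hA i).2.2.2
  refine hR m hm hm3 e (fun i => g i.val) hinj' fun i j => ⟨fun h => ?_, fun h => ?_⟩
  · rcases he3 i (g j.val) (hA j).2.1 h with h1 | h1
    · exact Or.inl (hinj' h1)
    · exact Or.inr (hinj' h1)
  · rcases h with rfl | rfl
    · exact he1 _
    · exact he2 _

theorem t_BICOL : S_BICOL := by
  intro I V R hR W
  classical
  induction hn : W.card generalizing W with
  | zero =>
    refine ⟨fun _ => true, fun i hi => ?_⟩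
    obtain ⟨x, hx, -⟩ := hi
    rw [Finset.card_eq_zero] at hn
    rw [hn] at hx
    exact absurd hx (Finset.notMem_empty x)
  | succ n ih =>
    obtain ⟨κ'⟩ := tg_colorable hR W
    obtain ⟨κ⟩ : Nonempty ((TG R W).Coloring Bool) := ⟨SimpleGraph.recolorOfEquiv _ finTwoEquiv κ'⟩
    have hW : W.Nonempty := Finset.card_pos.1 (by omega)
    obtain ⟨r, hr⟩ := hW
    -- a vertex at maximal distance from r in its component
    obtain ⟨v, hv, hvmax⟩ := Finset.exists_max_image (W.filter fun x => (TG R W).Reachable r x)
      (fun x => (TG R W).dist r x) ⟨r, Finset.mem_filter.2 ⟨hr, SimpleGraph.Reachable.refl r⟩⟩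
    rw [Finset.mem_filter] at hv
    obtain ⟨c, hc⟩ := ih (W.erase v) (by rw [Finset.card_erase_of_mem hv.1]; omega)
    -- edges of the trace graph away from v
    have hstep : ∀ x y, (TG R W).Adj x y → x ≠ v → y ≠ v → (c x ≠ c y ∧ κ x ≠ κ y) := by
      rintro x y hxy hx hy
      refine ⟨?_, κ.valid hxy⟩
      obtain ⟨h1, h2, h3, i, h4, h5, h6⟩ := hxy
      have h7 := hc i ⟨x, Finset.mem_erase.2 ⟨hx, h2⟩, y, Finset.mem_erase.2 ⟨hy, h3⟩, h1, h4, h5⟩
      obtain ⟨z, hz, hz1, hz2⟩ := h7 (!(c x))
      rcases h6 z (Finset.mem_of_mem_erase hz) hz1 with rfl | rfl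
      · simp at hz2
      · rw [hz2]
        simp
    have hwalk : ∀ (x y : V) (p : (TG R W).Walk x y), v ∉ p.support →
        (xor (c x) (κ x)) = (xor (c y) (κ y)) := by
      intro x y p
      induction p with
      | nil => intro _; rfl
      | @cons a b d hab p ihp =>
        intro hv'
        rw [SimpleGraph.Walk.support_cons, List.mem_cons, not_or] at hv'
        have hb : b ≠ v := by
          rintro rfl
          exact hv'.2 p.start_mem_support
        obtain ⟨h1, h2⟩ := hstep a b hab (fun h => hv'.1 h.symm) hb
        rw [← ihp hv'.2]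
        revert h1 h2
        cases c a <;> cases c b <;> cases κ a <;> cases κ b <;> simp
    -- all neighbours of v are equivalent to r
    have hnb : ∀ u, (TG R W).Adj u v → (xor (c u) (κ u)) = (xor (c r) (κ r)) := by
      intro u hu
      have hru : (TG R W).Reachable r u := hv.2.trans hu.symm.reachable
      obtain ⟨p, hp⟩ := hru.exists_walk_length_eq_dist
      refine (hwalk r u p ?_).symm
      intro hvp
      have h1 : (TG R W).dist r u ≤ (TG R W).dist r v :=
        hvmax u (Finset.mem_filter.2 ⟨hu.2.1, hru⟩)
      have h2 : (TG R W).dist r v ≤ (p.takeUntil v hvp).length := SimpleGraph.dist_le _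
      have h3 : (p.takeUntil v hvp).length + (p.dropUntil v hvp).length = p.length := by
        rw [← SimpleGraph.Walk.length_append, p.take_spec hvp]
      have h4 : (p.dropUntil v hvp).length ≠ 0 := by
        intro h0
        exact hu.ne (SimpleGraph.Walk.eq_of_length_eq_zero h0).symm
      omega
    -- the colouring
    set b : Bool := xor (xor (c r) (κ r)) (κ v) with hb
    refine ⟨fun x => if x = v then b else c x, fun i hi => ?_⟩
    by_cases h2 : ∃ x ∈ W.erase v, ∃ y ∈ W.erase v, x ≠ y ∧ R i x ∧ R i y
    · intro d
      obtain ⟨x, hx, hx1, hx2⟩ := hc i h2 d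
      refine ⟨x, Finset.mem_of_mem_erase hx, hx1, ?_⟩
      show (if x = v then b else c x) = d
      rw [if_neg (Finset.ne_of_mem_erase hx)]
      exact hx2
    · -- the edge has two vertices, one of them is v
      have key : ∃ u ∈ W, u ≠ v ∧ R i u ∧ R i v ∧ ∀ z ∈ W, R i z → z = u ∨ z = v := by
        obtain ⟨x, hx, y, hy, hxy, hRx, hRy⟩ := hi
        have h3 : ∀ p ∈ W, ∀ q ∈ W, p ≠ v → q ≠ v → R i p → R i q → p = q := by
          intro p hp q hq hpv hqv hRp hRq
          by_contra hpq
          exact h2 ⟨p, Finset.mem_erase.2 ⟨hpv, hp⟩, q, Finset.mem_erase.2 ⟨hqv, hq⟩, hpq, hRp, hRq⟩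
        by_cases hxv : x = v
        · subst hxv
          refine ⟨y, hy, fun h => hxy h.symm, hRy, hRx, fun z hz hRz => ?_⟩
          by_cases hzx : z = x
          · exact Or.inr hzx
          · exact Or.inl (h3 z hz y hy hzx (fun h => hxy h.symm) hRz hRy)
        · have hyv : y = v := by
            by_contra hyv
            exact hxy (h3 x hx y hy hxv hyv hRx hRy)
          subst hyv
          refine ⟨x, hx, hxv, hRx, hRy, fun z hz hRz => ?_⟩
          by_cases hzy : z = y
          · exact Or.inr hzy
          · exact Or.inl (h3 z hz x hx hzy hxv hRz hRx)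
      obtain ⟨u, hu, huv, hRu, hRv, hall⟩ := key
      have hadj : (TG R W).Adj u v := ⟨huv, hu, hv.1, i, hRu, hRv, hall⟩
      have h5 := hnb u hadj
      have h6 := κ.valid hadj
      have h7 : c u ≠ b := by
        rw [hb, ← h5]
        revert h6
        cases c u <;> cases κ u <;> cases κ v <;> simp
      intro d
      by_cases hd : c u = d
      · exact ⟨u, hu, hRu, by simp [huv, hd]⟩
      · refine ⟨v, hv.1, hRv, ?_⟩
        simp only [if_true]
        revert h7 hd
        cases c u <;> cases b <;> cases d <;> simp

end Pool.Agent.U690.DC.Bicol
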